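import Mathlib
import Pool.Agent.W560.Sep.Final
import Pool.Agent.W560.Sep.Low7

/-!
The least `n` for which `P^n` over `ℂ` contains a smooth unirational hypersurface of degree `d`
is `n(d) = d`.
-/

namespace Pool.Agent.Results.MP_8f100c_ag.LeastDimension

open MvPolynomial

/-- The hypersurface `V(F)` in `P^n` is smooth: the partial derivatives of `F` have no common zero
on it. -/
def SmoothForm {n : ℕ} (F : MvPolynomial (Fin (n + 1)) ℂ) : Prop :=
  ∀ p : Fin (n + 1) → ℂ, p ≠ 0 → eval p F = 0 → ∃ i, eval p (pderiv i F) ≠ 0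

/-- The hypersurface `V(F)` in `P^n` is a unirational (irreducible) variety: `F` is irreducible and
there is a dominant rational map from `A^N` to `V(F)`, given by `x_0, ..., x_n` in
`ℂ(t_1, ..., t_N)`, not all zero, with `F(x) = 0`, such that every form vanishing at `x`
vanishes on `V(F)`. -/
def UnirationalForm {n : ℕ} (F : MvPolynomial (Fin (n + 1)) ℂ) : Prop :=
  Irreducible F ∧ ∃ (N : ℕ) (x : Fin (n + 1) → FractionRing (MvPolynomial (Fin N) ℂ)),
    x ≠ 0 ∧ aeval x F = 0 ∧
      ∀ (e : ℕ) (G : MvPolynomial (Fin (n + 1)) ℂ), G.IsHomogeneous e → aeval x G = 0 →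
        ∀ p : Fin (n + 1) → ℂ, eval p F = 0 → eval p G = 0

/-- `P^n` contains a smooth unirational hypersurface of degree `d`. -/
def Realised (d n : ℕ) : Prop :=
  ∃ F : MvPolynomial (Fin (n + 1)) ℂ, F.IsHomogeneous d ∧ SmoothForm F ∧ UnirationalForm F

/-- The number `n(d)`: the least `n` such that `P^n` contains a smooth unirational hypersurface of
degree `d`. -/
noncomputable def leastDim (d : ℕ) : ℕ := sInf {n : ℕ | Realised d n}

/-- `n(d) = d`, and `P^n` contains a smooth unirational hypersurface of degree `d` exactly when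
`n ≥ d`. -/
theorem result (d : ℕ) (hd : 1 ≤ d) : leastDim d = d ∧ ∀ n : ℕ, Realised d n ↔ d ≤ n := by
  have key : ∀ n : ℕ, Realised d n ↔ d ≤ n := by
    intro n
    constructor
    · rintro ⟨F, hF, hsm, -, N, x, hx, hxF, hdense⟩
      exact W560.Sep.lower d n N hd F hF hsm x hx hxF hdense
    · intro hn
      obtain ⟨F, h1, h2, h3, x, h4, h5, h6⟩ := W560.Sep.upper d n hd hn
      exact ⟨F, h1, fun p hp _ => h3 p hp, h2, n, x, h4, h5, fun e G _ hG => h6 G hG⟩
  refine ⟨?_, key⟩
  have h1 : d ∈ {n : ℕ | Realised d n} := (key d).mpr le_rfl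
  exact le_antisymm (Nat.sInf_le h1) ((key _).mp (Nat.sInf_mem ⟨d, h1⟩))

end Pool.Agent.Results.MP_8f100c_ag.LeastDimension
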